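import Pool.Agent.DFM.Stmts

/-! Row FIN of squad DFM: the classification. -/

set_option autoImplicit false

namespace Pool.Agent.DFM.H59

theorem fin (neg : NegStmt) (pos : PosStmt) : FinStmt := by
  intro κ μ
  constructor
  · intro h L _ h1 h3 h4
    exact pos L h1 (by rw [h3, h4]; exact h)
  · intro hc
    obtain ⟨L, i, h1, h2, h3, h4, h5, h6⟩ := neg κ μ hc
    exact ⟨L, i, h2, h3, h4, h5, h6⟩

end Pool.Agent.DFM.H59
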